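import Mathlib

/-!
# Vertical fibres of a compact convex set (helper12)
-/

open Filter Topology Set MeasureTheory

namespace Helper12.PF

noncomputable section

variable {E : Type*} [NormedAddCommGroup E] [NormedSpace ℝ E] {K : Set (ℝ × E)}

/-- fibre over `x` -/
def fib (K : Set (ℝ × E)) (x : E) : Set ℝ := {t | (t, x) ∈ K}

def lo (K : Set (ℝ × E)) (x : E) : ℝ := sInf (fib K x)

def hi (K : Set (ℝ × E)) (x : E) : ℝ := sSup (fib K x)

lemma fib_compact (hK : IsCompact K) (x : E) : IsCompact (fib K x) := by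
  have h1 : fib K x = Prod.fst '' (K ∩ Prod.snd ⁻¹' {x}) := by
    ext t
    constructor
    · intro ht
      exact ⟨(t, x), ⟨ht, rfl⟩, rfl⟩
    · rintro ⟨⟨a, b⟩, ⟨hab, hb⟩, rfl⟩
      simp only [mem_preimage, mem_singleton_iff] at hb
      subst hb
      exact hab
  rw [h1]
  exact (hK.inter_right (isClosed_singleton.preimage continuous_snd)).image continuous_fst

lemma fib_nonempty {x : E} : x ∈ Prod.snd '' K ↔ (fib K x).Nonempty := by
  constructor
  · rintro ⟨⟨a, b⟩, hab, rfl⟩
    exact ⟨a, hab⟩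
  · rintro ⟨t, ht⟩
    exact ⟨(t, x), ht, rfl⟩

lemma lo_mem (hK : IsCompact K) {x : E} (hx : x ∈ Prod.snd '' K) : (lo K x, x) ∈ K :=
  (fib_compact hK x).sInf_mem (fib_nonempty.1 hx)

lemma hi_mem (hK : IsCompact K) {x : E} (hx : x ∈ Prod.snd '' K) : (hi K x, x) ∈ K :=
  (fib_compact hK x).sSup_mem (fib_nonempty.1 hx)

lemma lo_le (hK : IsCompact K) {x : E} {t : ℝ} (ht : (t, x) ∈ K) : lo K x ≤ t :=
  csInf_le (fib_compact hK x).bddBelow ht

lemma le_hi (hK : IsCompact K) {x : E} {t : ℝ} (ht : (t, x) ∈ K) : t ≤ hi K x :=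
  le_csSup (fib_compact hK x).bddAbove ht

lemma lo_le_hi (hK : IsCompact K) {x : E} (hx : x ∈ Prod.snd '' K) : lo K x ≤ hi K x :=
  lo_le hK (hi_mem hK hx)

lemma fib_eq (hK : IsCompact K) (hc : Convex ℝ K) {x : E} (hx : x ∈ Prod.snd '' K) :
    fib K x = Icc (lo K x) (hi K x) := by
  ext t
  constructor
  · intro ht
    exact ⟨lo_le hK ht, le_hi hK ht⟩
  · rintro ⟨h1, h2⟩
    rcases eq_or_lt_of_le (lo_le_hi hK hx) with h | h
    · have : t = lo K x := le_antisymm (by rw [h]; exact h2) h1
      rw [this]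
      exact lo_mem hK hx
    · have h3 := hc (lo_mem hK hx) (hi_mem hK hx)
        (a := (hi K x - t) / (hi K x - lo K x)) (b := (t - lo K x) / (hi K x - lo K x))
        (div_nonneg (by linarith) (by linarith)) (div_nonneg (by linarith) (by linarith))
        (by rw [← add_div, div_eq_one_iff_eq (by linarith)]; ring)
      have hne : hi K x - lo K x ≠ 0 := by linarith
      have h4 : ((hi K x - t) / (hi K x - lo K x)) • (lo K x, x) +
          ((t - lo K x) / (hi K x - lo K x)) • (hi K x, x) = (t, x) := by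
        ext
        · simp only [Prod.smul_mk, Prod.mk_add_mk, smul_eq_mul]
          field_simp
          ring
        · simp only [Prod.smul_mk, Prod.mk_add_mk]
          rw [← add_smul, ← add_div]
          have : (hi K x - t + (t - lo K x)) / (hi K x - lo K x) = 1 := by
            rw [div_eq_one_iff_eq hne]; ring
          rw [this, one_smul]
      rw [h4] at h3
      exact h3

lemma proj_convex (hc : Convex ℝ K) : Convex ℝ (Prod.snd '' K) :=
  hc.linear_image (LinearMap.snd ℝ ℝ E)

lemma lo_convex (hK : IsCompact K) (hc : Convex ℝ K) : ConvexOn ℝ (Prod.snd '' K) (lo K) := by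
  refine ⟨proj_convex hc, fun x hx y hy a b ha hb hab => ?_⟩
  have h1 := hc (lo_mem hK hx) (lo_mem hK hy) ha hb hab
  exact lo_le hK h1

lemma hi_concave (hK : IsCompact K) (hc : Convex ℝ K) : ConcaveOn ℝ (Prod.snd '' K) (hi K) := by
  refine ⟨proj_convex hc, fun x hx y hy a b ha hb hab => ?_⟩
  have h1 := hc (hi_mem hK hx) (hi_mem hK hy) ha hb hab
  exact le_hi hK h1

variable [FiniteDimensional ℝ E]

lemma lo_cont (hK : IsCompact K) (hc : Convex ℝ K) :
    ContinuousOn (lo K) (interior (Prod.snd '' K)) :=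
  ((lo_convex hK hc).subset interior_subset (proj_convex hc).interior).continuousOn isOpen_interior

lemma hi_cont (hK : IsCompact K) (hc : Convex ℝ K) :
    ContinuousOn (hi K) (interior (Prod.snd '' K)) :=
  ((hi_concave hK hc).subset interior_subset (proj_convex hc).interior).continuousOn isOpen_interior

omit [FiniteDimensional ℝ E] in
lemma int_proj {x : ℝ × E} (hx : x ∈ interior K) : x.2 ∈ interior (Prod.snd '' K) := by
  have h1 : IsOpenMap (Prod.snd : ℝ × E → E) := isOpenMap_snd
  have h2 : Prod.snd '' interior K ⊆ interior (Prod.snd '' K) :=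
    interior_maximal (image_mono interior_subset) (h1 _ isOpen_interior)
  exact h2 ⟨x, hx, rfl⟩

/-- If all the fibres over the interior of the projection have the same length, `K` is a
cylinder. -/
theorem cyl_of_const (hK : IsCompact K) (hc : Convex ℝ K) (hint : (interior K).Nonempty) {ℓ : ℝ}
    (hℓ : ∀ x ∈ interior (Prod.snd '' K), hi K x - lo K x = ℓ) (hpos : 0 < ℓ) :
    ∃ (f : (ℝ × E) →ₗ[ℝ] ℝ) (b : ℝ) (B : Set (ℝ × E)), f (ℓ, 0) ≠ 0 ∧ (∀ y ∈ B, f y = b) ∧
      K = {x | ∃ y ∈ B, ∃ t ∈ Set.Icc (0:ℝ) 1, x = y + t • ((ℓ, 0) : ℝ × E)} := by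
  set w : ℝ × E := (ℓ, 0) with hw
  set B : Set (ℝ × E) := {y | y ∈ K ∧ y + w ∈ K} with hB
  have hBc : Convex ℝ B := by
    intro x hx y hy a b ha hb hab
    refine ⟨hc hx.1 hy.1 ha hb hab, ?_⟩
    have h1 := hc hx.2 hy.2 ha hb hab
    have h2 : a • (x + w) + b • (y + w) = a • x + b • y + w := by
      have : w = a • w + b • w := by rw [← add_smul, hab, one_smul]
      conv_rhs => rw [this]
      simp only [smul_add]
      abel
    rwa [h2] at h1
  have hBcpt : IsCompact B := by
    have h1 : B = K ∩ (fun y => y + w) ⁻¹' K := by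
      ext y
      simp [hB]
    rw [h1]
    exact hK.inter_right (hK.isClosed.preimage (by fun_prop))
  -- points of B over the interior
  have hBlo : ∀ x ∈ interior (Prod.snd '' K), (lo K x, x) ∈ B := by
    intro x hx
    refine ⟨lo_mem hK (interior_subset hx), ?_⟩
    have h1 := hi_mem hK (interior_subset hx)
    have h2 : hi K x = lo K x + ℓ := by linarith [hℓ x hx]
    rw [h2] at h1
    have h3 : ((lo K x, x) : ℝ × E) + w = (lo K x + ℓ, x) := by
      rw [hw]
      ext <;> simp
    rwa [h3]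
  have hBint : interior B = ∅ := by
    rw [Set.eq_empty_iff_forall_notMem]
    intro y hy
    have h0 : y ∈ interior K := interior_mono (fun z hz => hz.1) hy
    have h1 := int_proj h0
    obtain ⟨ε, hε, hball⟩ := Metric.isOpen_iff.1 isOpen_interior y hy
    have h2 : (y.1 + ε / 2, y.2) ∈ interior B := by
      apply hball
      rw [Metric.mem_ball, Prod.dist_eq]
      simp only [dist_self, Real.dist_eq, add_sub_cancel_left]
      rw [abs_of_pos (by linarith), max_eq_left (by linarith)]
      linarith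
    have h3 := (interior_subset hy).1
    have h4 := (interior_subset h2).2
    have h5 : ((y.1 + ε / 2, y.2) : ℝ × E) + w = (y.1 + ε / 2 + ℓ, y.2) := by
      rw [hw]
      ext <;> simp
    rw [h5] at h4
    have h6 := lo_le hK (x := y.2) (t := y.1) h3
    have h7 := le_hi hK h4
    have h8 := hℓ y.2 h1
    linarith
  have hspan : affineSpan ℝ B ≠ ⊤ := by
    intro h
    have := hBc.interior_nonempty_iff_affineSpan_eq_top.2 h
    rw [hBint] at this
    exact this.ne_empty rfl
  obtain ⟨x0, hx0⟩ := hint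
  have hx0' := int_proj hx0
  have hp0 := hBlo _ hx0'
  -- functional
  have hdir : (affineSpan ℝ B).direction < ⊤ := by
    rw [lt_top_iff_ne_top]
    intro h
    apply hspan
    exact (AffineSubspace.direction_eq_top_iff_of_nonempty
      ⟨_, subset_affineSpan ℝ B hp0⟩).1 h
  obtain ⟨f, hf0, hfker⟩ := Submodule.exists_le_ker_of_lt_top _ hdir
  have hfB : ∀ y ∈ B, f y = f (lo K x0.2, x0.2) := by
    intro y hy
    have h1 : y -ᵥ ((lo K x0.2, x0.2) : ℝ × E) ∈ (affineSpan ℝ B).direction :=
      AffineSubspace.vsub_mem_direction (subset_affineSpan ℝ B hy) (subset_affineSpan ℝ B hp0)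
    have h2 := hfker h1
    rw [LinearMap.mem_ker, vsub_eq_sub, map_sub] at h2
    linarith
  have hfw : f w ≠ 0 := by
    intro hcon
    apply hf0
    have hw1 : f ((1:ℝ), (0:E)) = 0 := by
      have h1 : w = ℓ • ((1:ℝ), (0:E)) := by
        rw [hw]
        ext <;> simp
      rw [h1, map_smul, smul_eq_mul] at hcon
      exact (mul_eq_zero.1 hcon).resolve_left hpos.ne'
    have ht : ∀ (t : ℝ) (x : E), f (t, x) = f (0, x) := by
      intro t x
      have h1 : ((t, x) : ℝ × E) = t • ((1:ℝ), (0:E)) + (0, x) := by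
        ext <;> simp
      rw [h1, map_add, map_smul, hw1, smul_zero, zero_add]
    obtain ⟨ε, hε, hball⟩ := Metric.isOpen_iff.1 isOpen_interior _ hx0'
    have hE : ∀ v : E, f ((0:ℝ), v) = 0 := by
      intro v
      by_cases hv : v = 0
      · rw [hv]
        exact map_zero f
      have hvn : 0 < ‖v‖ := norm_pos_iff.2 hv
      set r : ℝ := ε / (2 * ‖v‖) with hr
      have hrpos : 0 < r := by positivity
      have h1 : x0.2 + r • v ∈ interior (Prod.snd '' K) := by
        apply hball
        rw [Metric.mem_ball, dist_eq_norm, add_sub_cancel_left, norm_smul, Real.norm_eq_abs,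
          abs_of_pos hrpos, hr]
        have : ε / (2 * ‖v‖) * ‖v‖ = ε / 2 := by field_simp
        rw [this]
        linarith
      have h2 := hfB _ (hBlo _ h1)
      rw [ht, ht (lo K x0.2)] at h2
      have h3 : (((0:ℝ), x0.2 + r • v) : ℝ × E) = (0, x0.2) + r • ((0:ℝ), v) := by
        ext <;> simp
      rw [h3, map_add, map_smul, smul_eq_mul] at h2
      have h4 : r * f ((0:ℝ), v) = 0 := by linarith
      exact (mul_eq_zero.1 h4).resolve_left hrpos.ne'
    refine LinearMap.ext fun x => ?_
    have h1 : x = ((x.1, x.2) : ℝ × E) := rfl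
    rw [h1, ht, hE]
    rfl
  refine ⟨f, f (lo K x0.2, x0.2), B, hfw, hfB, ?_⟩
  apply Set.Subset.antisymm
  · -- K is contained in the closed set
    have hcl : IsClosed {x : ℝ × E | ∃ y ∈ B, ∃ t ∈ Set.Icc (0:ℝ) 1, x = y + t • w} := by
      have h1 : {x : ℝ × E | ∃ y ∈ B, ∃ t ∈ Set.Icc (0:ℝ) 1, x = y + t • w} =
          (fun q : (ℝ × E) × ℝ => q.1 + q.2 • w) '' (B ×ˢ Icc (0:ℝ) 1) := by
        ext x
        constructor
        · rintro ⟨y, hy, t, ht, rfl⟩
          exact ⟨(y, t), ⟨hy, ht⟩, rfl⟩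
        · rintro ⟨⟨y, t⟩, ⟨hy, ht⟩, rfl⟩
          exact ⟨y, hy, t, ht, rfl⟩
      rw [h1]
      exact ((hBcpt.prod isCompact_Icc).image (by fun_prop)).isClosed
    have h1 : interior K ⊆ {x : ℝ × E | ∃ y ∈ B, ∃ t ∈ Set.Icc (0:ℝ) 1, x = y + t • w} := by
      intro x hx
      have h2 := int_proj hx
      have h3 : (x.1, x.2) ∈ K := interior_subset hx
      have h4 := lo_le hK h3
      have h5 := le_hi hK h3
      have h6 := hℓ _ h2
      refine ⟨(lo K x.2, x.2), hBlo _ h2, (x.1 - lo K x.2) / ℓ, ⟨?_, ?_⟩, ?_⟩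
      · exact div_nonneg (by linarith) hpos.le
      · rw [div_le_one hpos]
        linarith
      · rw [hw]
        ext
        · simp only [Prod.fst_add, Prod.smul_fst, smul_eq_mul]
          field_simp
          ring
        · simp
    have h2 := hc.closure_interior_eq_closure_of_nonempty_interior ⟨x0, hx0⟩
    rw [hK.isClosed.closure_eq] at h2
    rw [← h2]
    exact closure_minimal h1 hcl
  · rintro x ⟨y, hy, t, ht, rfl⟩
    have h1 := hc hy.1 hy.2 (a := 1 - t) (b := t) (by linarith [ht.2]) ht.1 (by ring)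
    have h2 : (1 - t) • y + t • (y + w) = y + t • w := by
      rw [sub_smul, one_smul, smul_add]
      abel
    rwa [h2] at h1

end

end Helper12.PF
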