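import Mathlib
import Pool.Agent.Helper12.FacDefs2

/-!
# Polynomial factors of transforms of polytopes in all dimensions: module statements (helper12)
-/

open Helper12.ConvexFactor

namespace Helper12.PF

/-- tangential derivation along `{p = 0}` -/
noncomputable def tau {n : ℕ} (p : MvPolynomial (Fin (n+1)) ℂ) (j : Fin n)
    (q : MvPolynomial (Fin (n+1)) ℂ) : MvPolynomial (Fin (n+1)) ℂ :=
  MvPolynomial.pderiv 0 p * MvPolynomial.pderiv j.succ q -
    MvPolynomial.pderiv j.succ p * MvPolynomial.pderiv 0 q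

/-- (AC) algebraic core: an algebraic function is never the exponential of a nonconstant linear
form. -/
def ST_AC : Prop :=
  ∀ (n : ℕ) (p N0 N1 : MvPolynomial (Fin (n+1)) ℂ) (j : Fin n) (c : ℂ),
    Prime p → MvPolynomial.pderiv 0 p ≠ 0 → ¬ p ∣ N0 → ¬ p ∣ N1 → c ≠ 0 →
    ¬ p ∣ (N0 * tau p j N1 - N1 * tau p j N0 +
      MvPolynomial.C c * N0 * N1 * MvPolynomial.pderiv 0 p)

/-- (RT) Ritt type theorem on an irreducible hypersurface. -/
def ST_RT : Prop :=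
  ∀ (n : ℕ) (p : MvPolynomial (Fin n) ℂ) (V : Finset (Fin n → ℂ))
    (N : (Fin n → ℂ) → MvPolynomial (Fin n) ℂ), Prime p →
    (∀ z, MvPolynomial.eval z p = 0 →
      ∑ v ∈ V, MvPolynomial.eval z (N v) * Complex.exp (∑ j, v j * z j) = 0) →
    (∃ v ∈ V, ¬ p ∣ N v) →
    ∃ v ∈ V, ∃ v' ∈ V, v ≠ v' ∧ ∀ z w : Fin n → ℂ, ∑ j, (v - v') j * w j = 0 →
      MvPolynomial.eval (z + w) p = MvPolynomial.eval z p

/-- (EP) transforms of bounded polyhedra are exponential polynomials divided by a polynomial. -/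
def ST_EP : Prop :=
  ∀ (n m : ℕ) (a : Fin m → Fin n → ℝ) (b : Fin m → ℝ),
    Bornology.IsBounded {x : Fin n → ℝ | ∀ i, a i ⬝ᵥ x ≤ b i} →
    ∃ (D : MvPolynomial (Fin n) ℂ) (e : ℕ) (V : Finset (Fin n → ℝ))
      (N : (Fin n → ℝ) → MvPolynomial (Fin n) ℂ), D ≠ 0 ∧ D.IsHomogeneous (e + n) ∧
      (∀ v ∈ V, (N v).IsHomogeneous e) ∧
      ∀ ζ, MvPolynomial.eval ζ D * indicatorFT {x : Fin n → ℝ | ∀ i, a i ⬝ᵥ x ≤ b i} ζ =
        ∑ v ∈ V, MvPolynomial.eval ζ (N v) *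
          Complex.exp (-(Complex.I * ∑ j, (v j : ℂ) * ζ j))

/-- (HC) a convex body whose transform vanishes on a complex hyperplane is a cylinder. -/
def ST_HC : Prop :=
  ∀ (n : ℕ) (K : Set (Fin n → ℝ)), IsConvexBody K → ∀ (l : Fin n → ℂ) (c : ℂ), l ≠ 0 →
    (∀ ζ : Fin n → ℂ, ∑ j, l j * ζ j = c → indicatorFT K ζ = 0) → IsCylinder K

/-- (CF) cylinders have a polynomial factor of degree one. -/
def ST_CF : Prop :=
  ∀ (n : ℕ) (K : Set (Fin n → ℝ)), IsConvexBody K → IsCylinder K →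
    ∃ p : MvPolynomial (Fin n) ℂ, p.totalDegree = 1 ∧ IsPolynomialFactor K p

end Helper12.PF
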