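import Mathlib
import Pool.Agent.Helper12.PF.Defs

/-!
# Linear changes of coordinates in `ℝⁿ` (helper12)
-/

open Filter Topology Set MeasureTheory Helper12.ConvexFactor

namespace Helper12.PF

noncomputable section

variable {n : ℕ}

/-- transposed action of a real linear map on complex vectors -/
def tr (L : (Fin n → ℝ) ≃L[ℝ] (Fin n → ℝ)) (ζ : Fin n → ℂ) : Fin n → ℂ :=
  fun j => ∑ i, ((L (Pi.single j 1) i : ℝ) : ℂ) * ζ i

lemma apply_eq_sum (L : (Fin n → ℝ) ≃L[ℝ] (Fin n → ℝ)) (x : Fin n → ℝ) (i : Fin n) :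
    L x i = ∑ j, x j * L (Pi.single j 1) i := by
  have h1 : x = ∑ j, x j • (Pi.single j 1 : Fin n → ℝ) := by
    ext k
    simp [Finset.sum_apply, Pi.single_apply]
  conv_lhs => rw [h1]
  rw [map_sum, Finset.sum_apply]
  refine Finset.sum_congr rfl fun j _ => ?_
  rw [map_smul, Pi.smul_apply, smul_eq_mul]

lemma tr_pair (L : (Fin n → ℝ) ≃L[ℝ] (Fin n → ℝ)) (x : Fin n → ℝ) (ζ : Fin n → ℂ) :
    ∑ j, (x j : ℂ) * tr L ζ j = ∑ i, ((L x i : ℝ) : ℂ) * ζ i := by
  simp only [tr]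
  simp_rw [apply_eq_sum L x]
  push_cast
  simp_rw [Finset.mul_sum, Finset.sum_mul]
  rw [Finset.sum_comm]
  refine Finset.sum_congr rfl fun i _ => Finset.sum_congr rfl fun j _ => ?_
  ring

lemma tr_symm (L : (Fin n → ℝ) ≃L[ℝ] (Fin n → ℝ)) (ζ : Fin n → ℂ) :
    tr L (tr L.symm ζ) = ζ := by
  ext j
  have h1 := tr_pair L (Pi.single j 1) (tr L.symm ζ)
  have h2 := tr_pair L.symm (L (Pi.single j 1)) ζ
  rw [h2, L.symm_apply_apply] at h1
  have h3 : ∀ (ξ : Fin n → ℂ), ∑ x, ((Pi.single j 1 : Fin n → ℝ) x : ℂ) * ξ x = ξ j := by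
    intro ξ
    rw [Finset.sum_eq_single j]
    · simp
    · intro b _ hb
      simp [Pi.single_eq_of_ne hb]
    · simp
  rwa [h3, h3] at h1

/-- the transform of a linear image -/
lemma FT_lin (L : (Fin n → ℝ) ≃L[ℝ] (Fin n → ℝ)) : ∃ κ : ℂ, κ ≠ 0 ∧
    ∀ (K : Set (Fin n → ℝ)) (ζ : Fin n → ℂ),
      indicatorFT K (tr L ζ) = κ * indicatorFT (L '' K) ζ := by
  set μ' : Measure (Fin n → ℝ) := Measure.map L volume with hμ'
  have : μ'.IsAddHaarMeasure := L.isAddHaarMeasure_map volume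
  have h1 : μ' = Measure.addHaarScalarFactor μ' volume • volume :=
    Measure.isAddLeftInvariant_eq_smul μ' volume
  set c := Measure.addHaarScalarFactor μ' volume with hc
  have hcpos : 0 < c := Measure.addHaarScalarFactor_pos_of_isAddHaarMeasure μ' volume
  refine ⟨((c : ℝ) : ℂ), by exact_mod_cast hcpos.ne', fun K ζ => ?_⟩
  set g : (Fin n → ℝ) → ℂ := fun x => Complex.exp (-(Complex.I * ∑ j, (x j : ℂ) * ζ j)) with hg
  have h2 : ∫ x in L '' K, g x ∂μ' = ∫ x in L ⁻¹' (L '' K), g (L x) :=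
    L.toHomeomorph.measurableEmbedding.setIntegral_map g (L '' K)
  rw [L.injective.preimage_image] at h2
  have h3 : indicatorFT K (tr L ζ) = ∫ x in K, g (L x) := by
    unfold indicatorFT
    refine integral_congr_ae (Eventually.of_forall fun x => ?_)
    simp only [hg, tr_pair]
  rw [h3, ← h2, h1]
  have h4 : (c • (volume : Measure (Fin n → ℝ))).restrict (L '' K) =
      c • (volume : Measure (Fin n → ℝ)).restrict (L '' K) := by
    rw [Measure.restrict_smul]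
  rw [h4, integral_smul_nnreal_measure]
  rfl

lemma body_lin {K : Set (Fin n → ℝ)} (hK : IsConvexBody K) (L : (Fin n → ℝ) ≃L[ℝ] (Fin n → ℝ)) :
    IsConvexBody (L '' K) := by
  refine ⟨hK.isCompact.image L.continuous, ?_, ?_⟩
  · exact hK.convex.linear_image L.toLinearEquiv.toLinearMap
  · have h1 := L.toHomeomorph.image_interior K
    have h2 : L '' interior K = interior (L '' K) := h1
    rw [← h2]
    exact hK.nonempty_interior.image _

/-- cylinders in a real vector space -/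
def Cyl {E : Type*} [AddCommGroup E] [Module ℝ E] (K : Set E) : Prop :=
  ∃ (f : E →ₗ[ℝ] ℝ) (w : E) (b : ℝ) (B : Set E), f w ≠ 0 ∧ (∀ y ∈ B, f y = b) ∧
    K = {x | ∃ y ∈ B, ∃ t ∈ Set.Icc (0:ℝ) 1, x = y + t • w}

lemma Cyl.image {E F : Type*} [AddCommGroup E] [Module ℝ E] [AddCommGroup F] [Module ℝ F]
    {K : Set E} (hK : Cyl K) (L : E ≃ₗ[ℝ] F) : Cyl (L '' K) := by
  obtain ⟨f, w, b, B, hw, hB, rfl⟩ := hK
  refine ⟨f.comp L.symm.toLinearMap, L w, b, L '' B, by simpa using hw, ?_, ?_⟩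
  · rintro _ ⟨y, hy, rfl⟩
    simpa using hB y hy
  · ext x
    constructor
    · rintro ⟨_, ⟨y, hy, t, ht, rfl⟩, rfl⟩
      exact ⟨L y, ⟨y, hy, rfl⟩, t, ht, by simp⟩
    · rintro ⟨_, ⟨y, hy, rfl⟩, t, ht, rfl⟩
      exact ⟨y + t • w, ⟨y, hy, t, ht, rfl⟩, by simp⟩

lemma cyl_iff {K : Set (Fin n → ℝ)} : Cyl K ↔ IsCylinder K := by
  constructor
  · rintro ⟨f, w, b, B, hw, hB, hK⟩
    have h1 : ∀ x : Fin n → ℝ, (fun j => f (Pi.single j 1)) ⬝ᵥ x = f x := by
      intro x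
      have h1 : x = ∑ j, x j • (Pi.single j 1 : Fin n → ℝ) := by
        ext k
        simp [Finset.sum_apply, Pi.single_apply]
      conv_rhs => rw [h1]
      rw [map_sum]
      simp only [dotProduct, map_smul, smul_eq_mul]
      exact Finset.sum_congr rfl fun j _ => mul_comm _ _
    exact ⟨fun j => f (Pi.single j 1), w, b, B, by rwa [h1], fun y hy => by rw [h1, hB y hy], hK⟩
  · rintro ⟨a, w, b, B, hw, hB, hK⟩
    refine ⟨⟨⟨fun x => a ⬝ᵥ x, fun x y => dotProduct_add _ _ _⟩, fun r x => ?_⟩, w, b, B, hw, hB, hK⟩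
    simp [dotProduct_smul]

end

end Helper12.PF
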