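import Mathlib
import Pool.Agent.Helper12.PF.Lin

/-!
# Splitting off the first coordinate (helper12)
-/

open Filter Topology Set MeasureTheory Helper12.ConvexFactor

namespace Helper12.PF

noncomputable section

variable {n : ℕ}

/-- `ℝ × ℝⁿ ≃ ℝⁿ⁺¹` -/
def ce (n : ℕ) : (ℝ × (Fin n → ℝ)) ≃L[ℝ] (Fin (n + 1) → ℝ) :=
  Fin.consEquivL ℝ (fun _ : Fin (n + 1) => ℝ)

lemma ce_zero (x : ℝ × (Fin n → ℝ)) : ce n x 0 = x.1 := rfl

lemma ce_succ (x : ℝ × (Fin n → ℝ)) (j : Fin n) : ce n x j.succ = x.2 j := rfl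

lemma mp_ce : MeasurePreserving (ce n) volume volume := by
  have h1 := (volume_preserving_piFinSuccAbove (fun _ : Fin (n + 1) => ℝ) 0).symm
  have h2 : ⇑(MeasurableEquiv.piFinSuccAbove (fun _ : Fin (n + 1) => ℝ) 0).symm = ce n := by
    ext x i
    refine Fin.cases ?_ (fun j => ?_) i
    · simp [ce_zero]
    · simp [ce_succ]
  rwa [h2] at h1

lemma FT_prod (K : Set (Fin (n + 1) → ℝ)) (ζ : Fin (n + 1) → ℂ) :
    indicatorFT K ζ = ∫ x in ce n ⁻¹' K,
      Complex.exp (-(Complex.I * ((x.1 : ℂ) * ζ 0 + ∑ j, (x.2 j : ℂ) * ζ j.succ))) := by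
  have h1 := mp_ce.setIntegral_preimage_emb (ce n).toHomeomorph.measurableEmbedding
    (fun x => Complex.exp (-(Complex.I * ∑ j, (x j : ℂ) * ζ j))) K
  unfold indicatorFT
  rw [← h1]
  refine integral_congr_ae (Eventually.of_forall fun x => ?_)
  simp only [Fin.sum_univ_succ, ce_zero, ce_succ]

end

end Helper12.PF
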