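import Mathlib
import Pool.Agent.Helper12.PF.Prod
import Pool.Agent.Helper12.PF.Fib
import Pool.Agent.Helper12.FacConv

/-!
# Cylinders have a factor of degree one (helper12)
-/

open Filter Topology Set MeasureTheory Helper12.ConvexFactor

namespace Helper12.PF

noncomputable section

variable {m N : ℕ}

/-- exponential parameter integrals over compact sets are entire -/
theorem entire_integral {P : Set (Fin m → ℝ)} (hP : IsCompact P) {lam : (Fin m → ℝ) → Fin N → ℂ}
    (hlam : Continuous lam) :
    Differentiable ℂ (fun ζ : Fin N → ℂ => ∫ x in P, Complex.exp (∑ j, lam x j * ζ j)) := by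
  intro ζ0
  set A : (Fin m → ℝ) → ((Fin N → ℂ) →L[ℂ] ℂ) := fun x =>
    ∑ j, lam x j • (ContinuousLinearMap.proj j : (Fin N → ℂ) →L[ℂ] ℂ) with hA
  have hAapp : ∀ x ζ, A x ζ = ∑ j, lam x j * ζ j := by
    intro x ζ
    simp [hA]
  have hAc : Continuous A := by
    rw [hA]
    refine continuous_finsetSum _ fun j _ => ?_
    exact ((continuous_apply j).comp hlam).smul continuous_const
  set F' : (Fin N → ℂ) → (Fin m → ℝ) → ((Fin N → ℂ) →L[ℂ] ℂ) := fun ζ x =>
    Complex.exp (∑ j, lam x j * ζ j) • A x with hF'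
  have hjoint : Continuous (fun q : (Fin N → ℂ) × (Fin m → ℝ) => F' q.1 q.2) := by
    rw [hF']
    have h1 : Continuous fun q : (Fin N → ℂ) × (Fin m → ℝ) => ∑ j, lam q.2 j * q.1 j := by
      refine continuous_finsetSum _ fun j _ => ?_
      exact ((continuous_apply j).comp (hlam.comp continuous_snd)).mul
        ((continuous_apply j).comp continuous_fst)
    exact h1.cexp.smul (hAc.comp continuous_snd)
  obtain ⟨C, hC⟩ := ((isCompact_closedBall ζ0 1).prod hP).exists_bound_of_continuousOn
    hjoint.continuousOn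
  have hfin : IsFiniteMeasure ((volume : Measure (Fin m → ℝ)).restrict P) :=
    ⟨by rw [Measure.restrict_apply_univ]; exact hP.measure_lt_top⟩
  have hcx : ∀ ζ : Fin N → ℂ, Continuous fun x : Fin m → ℝ => Complex.exp (∑ j, lam x j * ζ j) := by
    intro ζ
    have h1 : Continuous fun x : Fin m → ℝ => ∑ j, lam x j * ζ j := by
      refine continuous_finsetSum _ fun j _ => ?_
      exact ((continuous_apply j).comp hlam).mul continuous_const
    exact h1.cexp
  have h := hasFDerivAt_integral_of_dominated_of_fderiv_le (𝕜 := ℂ)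
    (μ := (volume : Measure (Fin m → ℝ)).restrict P)
    (F := fun (ζ : Fin N → ℂ) (x : Fin m → ℝ) => Complex.exp (∑ j, lam x j * ζ j))
    (F' := F') (x₀ := ζ0) (bound := fun _ => C) (s := Metric.ball ζ0 1)
    (Metric.ball_mem_nhds ζ0 one_pos)
    (Eventually.of_forall fun ζ => (hcx ζ).aestronglyMeasurable)
    ((hcx ζ0).continuousOn.integrableOn_compact hP)
    ((hjoint.comp (Continuous.prodMk_right ζ0)).aestronglyMeasurable)
    ?_ (integrable_const C) ?_
  · exact h.differentiableAt
  · rw [ae_restrict_iff' hP.measurableSet]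
    refine Eventually.of_forall fun x hx ζ hζ => ?_
    exact hC (ζ, x) ⟨Metric.ball_subset_closedBall hζ, hx⟩
  · refine Eventually.of_forall fun x ζ _ => ?_
    have h1 : HasFDerivAt (fun ζ : Fin N → ℂ => ∑ j, lam x j * ζ j) (A x) ζ := by
      have h2 := (A x).hasFDerivAt (x := ζ)
      have h3 : (⇑(A x)) = fun ζ : Fin N → ℂ => ∑ j, lam x j * ζ j := by
        ext ζ
        exact hAapp x ζ
      rwa [h3] at h2
    exact h1.cexp

end

end Helper12.PF
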