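import Mathlib

/-!
# Uniqueness for the Fourier transform at continuity points (helper12)
-/

open Filter Topology Set MeasureTheory FourierTransform

namespace Helper12.PF

noncomputable section

variable {n : ℕ}

/-- an integrable function on `ℝⁿ` with vanishing transform vanishes where it is continuous -/
theorem fourier_unique (g : (Fin n → ℝ) → ℂ) (hg : Integrable g)
    (h0 : ∀ ξ : Fin n → ℝ, ∫ x, Complex.exp (-(Complex.I * ∑ j, (x j : ℂ) * (ξ j : ℂ))) * g x = 0)
    (x : Fin n → ℝ) (hx : ContinuousAt g x) : g x = 0 := by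
  set f : EuclideanSpace ℝ (Fin n) → ℂ := fun v => g (WithLp.ofLp v) with hf
  have hfi : Integrable f := by
    have := (PiLp.volume_preserving_ofLp (Fin n)).integrable_comp_emb
      (MeasurableEquiv.toLp 2 (Fin n → ℝ)).symm.measurableEmbedding (g := g)
    exact this.2 hg
  have hF : 𝓕 f = 0 := by
    ext w
    rw [Real.fourier_eq']
    have h1 : ∫ v : EuclideanSpace ℝ (Fin n), Complex.exp (↑(-2 * Real.pi * inner ℝ v w) * Complex.I) • f v =
        ∫ x : Fin n → ℝ, Complex.exp (-(Complex.I * ∑ j, (x j : ℂ) * ((2 * Real.pi * w j : ℝ) : ℂ))) * g x := by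
      rw [← (PiLp.volume_preserving_ofLp (Fin n)).integral_comp
        (MeasurableEquiv.toLp 2 (Fin n → ℝ)).symm.measurableEmbedding]
      refine integral_congr_ae (Eventually.of_forall fun v => ?_)
      simp only [hf, smul_eq_mul]
      congr 2
      simp only [PiLp.inner_apply, RCLike.inner_apply, conj_trivial]
      push_cast
      rw [Finset.mul_sum, Finset.mul_sum, Finset.sum_mul, ← Finset.sum_neg_distrib]
      refine Finset.sum_congr rfl fun j _ => ?_
      ring
    rw [h1, h0]
    rfl
  have hc : ContinuousAt f (WithLp.toLp 2 x) := by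
    refine ContinuousAt.comp (g := g) ?_ ?_
    · simpa using hx
    · exact (PiLp.continuous_ofLp 2 _).continuousAt
  have h2 := hfi.fourierInv_fourier_eq (by rw [hF]; exact integrable_zero _ _ _) hc
  rw [hF] at h2
  have h3 : 𝓕⁻ (0 : EuclideanSpace ℝ (Fin n) → ℂ) (WithLp.toLp 2 x) = 0 := by
    rw [Real.fourierInv_eq]
    simp
  rw [h3] at h2
  exact h2.symm

end

end Helper12.PF
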