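import Mathlib
import Pool.Agent.Helper12.PF.Prod
import Pool.Agent.Helper12.PF.Four
import Pool.Agent.Helper12.PF.Fib

/-!
# Transforms vanishing on `ζ₀ = c` (helper12)
-/

open Filter Topology Set MeasureTheory Helper12.ConvexFactor

namespace Helper12.PF

noncomputable section

variable {n : ℕ} {K : Set (ℝ × (Fin n → ℝ))}

/-- fibre integral -/
def gf (K : Set (ℝ × (Fin n → ℝ))) (c : ℂ) (x : Fin n → ℝ) : ℂ :=
  ∫ t in fib K x, Complex.exp (-(Complex.I * (t * c)))

lemma gf_formula (hK : IsCompact K) (hc : Convex ℝ K) {c : ℂ} (hc0 : c ≠ 0) {x : Fin n → ℝ}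
    (hx : x ∈ Prod.snd '' K) :
    gf K c x = (Complex.exp (-(Complex.I * (hi K x * c))) - Complex.exp (-(Complex.I * (lo K x * c)))) /
      (-(Complex.I * c)) := by
  unfold gf
  rw [fib_eq hK hc hx, integral_Icc_eq_integral_Ioc, ← intervalIntegral.integral_of_le (lo_le_hi hK hx)]
  have hne : -(Complex.I * c) ≠ 0 := neg_ne_zero.2 (mul_ne_zero Complex.I_ne_zero hc0)
  have h1 : ∀ t : ℝ, Complex.exp (-(Complex.I * (t * c))) = Complex.exp (-(Complex.I * c) * t) := by
    intro t
    congr 1
    ring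
  simp_rw [h1]
  rw [integral_exp_mul_complex hne]

lemma prod_integrable (hK : IsCompact K) (c : ℂ) (ζ : Fin n → ℂ) :
    Integrable (K.indicator fun x : ℝ × (Fin n → ℝ) =>
      Complex.exp (-(Complex.I * ((x.1 : ℂ) * c + ∑ j, (x.2 j : ℂ) * ζ j)))) := by
  rw [integrable_indicator_iff hK.measurableSet]
  have h1 : Continuous fun x : ℝ × (Fin n → ℝ) =>
      Complex.exp (-(Complex.I * ((x.1 : ℂ) * c + ∑ j, (x.2 j : ℂ) * ζ j))) := by fun_prop
  exact h1.continuousOn.integrableOn_compact hK

lemma inner_eq (c : ℂ) (ζ : Fin n → ℂ) (x : Fin n → ℝ) (hK : IsCompact K) :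
    ∫ t : ℝ, (K.indicator fun x : ℝ × (Fin n → ℝ) =>
      Complex.exp (-(Complex.I * ((x.1 : ℂ) * c + ∑ j, (x.2 j : ℂ) * ζ j)))) (t, x) =
      Complex.exp (-(Complex.I * ∑ j, (x j : ℂ) * ζ j)) * gf K c x := by
  unfold gf
  rw [← integral_const_mul, ← integral_indicator (fib_compact hK x).measurableSet]
  refine integral_congr_ae (Eventually.of_forall fun t => ?_)
  by_cases ht : (t, x) ∈ K
  · have ht' : t ∈ fib K x := ht
    simp only [indicator_of_mem ht, indicator_of_mem ht']
    rw [← Complex.exp_add]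
    congr 1
    ring
  · have ht' : t ∉ fib K x := ht
    simp only [indicator_of_notMem ht, indicator_of_notMem ht']

lemma gf_integrable (hK : IsCompact K) (c : ℂ) : Integrable (gf K c) := by
  have h1 := (prod_integrable hK c 0).integral_prod_right
  refine h1.congr (Eventually.of_forall fun x => ?_)
  simp only []
  rw [inner_eq c 0 x hK]
  simp

lemma gf_transform (hK : IsCompact K) (c : ℂ) (ζ : Fin n → ℂ) :
    ∫ x in K, Complex.exp (-(Complex.I * ((x.1 : ℂ) * c + ∑ j, (x.2 j : ℂ) * ζ j))) =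
      ∫ x, Complex.exp (-(Complex.I * ∑ j, (x j : ℂ) * ζ j)) * gf K c x := by
  rw [← integral_indicator hK.measurableSet, Measure.volume_eq_prod,
    integral_prod_symm _ (prod_integrable hK c ζ)]
  refine integral_congr_ae (Eventually.of_forall fun x => ?_)
  exact inner_eq c ζ x hK

/-- main step in product coordinates -/
theorem slab (hK : IsCompact K) (hc : Convex ℝ K) (hint : (interior K).Nonempty) {c : ℂ}
    (hre : c.re ≠ 0)
    (h0 : ∀ ζ : Fin n → ℂ, ∫ x in K,
      Complex.exp (-(Complex.I * ((x.1 : ℂ) * c + ∑ j, (x.2 j : ℂ) * ζ j))) = 0) :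
    ∃ ℓ : ℝ, 0 < ℓ ∧ ∀ x ∈ interior (Prod.snd '' K), hi K x - lo K x = ℓ := by
  have hc0 : c ≠ 0 := by
    rintro rfl
    exact hre rfl
  set U := interior (Prod.snd '' K) with hU
  -- the fibre integral vanishes over U
  have hg0 : ∀ x ∈ U, gf K c x = 0 := by
    intro x hx
    apply fourier_unique (gf K c) (gf_integrable hK c) _ x
    · have h1 : (gf K c) =ᶠ[𝓝 x] fun x => (Complex.exp (-(Complex.I * (hi K x * c))) -
          Complex.exp (-(Complex.I * (lo K x * c)))) / (-(Complex.I * c)) := by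
        filter_upwards [isOpen_interior.mem_nhds hx] with y hy
        exact gf_formula hK hc hc0 (interior_subset hy)
      refine ContinuousAt.congr ?_ h1.symm
      have h2 := (hi_cont hK hc).continuousAt (isOpen_interior.mem_nhds hx)
      have h3 := (lo_cont hK hc).continuousAt (isOpen_interior.mem_nhds hx)
      have h4 : ContinuousAt (fun y => ((hi K y : ℝ) : ℂ)) x :=
        Complex.continuous_ofReal.continuousAt.comp h2
      have h5 : ContinuousAt (fun y => ((lo K y : ℝ) : ℂ)) x :=
        Complex.continuous_ofReal.continuousAt.comp h3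
      fun_prop
    · intro ξ
      rw [← gf_transform hK c]
      exact h0 _
  -- integer values
  have hint' : ∀ x ∈ U, ∃ k : ℤ, (hi K x - lo K x) * c.re / (2 * Real.pi) = k := by
    intro x hx
    have h1 := hg0 x hx
    rw [gf_formula hK hc hc0 (interior_subset hx)] at h1
    have hne : -(Complex.I * c) ≠ 0 := neg_ne_zero.2 (mul_ne_zero Complex.I_ne_zero hc0)
    have h2 := (div_eq_zero_iff.1 h1).resolve_right hne
    rw [sub_eq_zero, Complex.exp_eq_exp_iff_exists_int] at h2
    obtain ⟨k, hk⟩ := h2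
    refine ⟨-k, ?_⟩
    have h3 := congrArg Complex.im hk
    simp only [Complex.neg_im, Complex.mul_im, Complex.I_re, Complex.I_im, Complex.ofReal_re,
      Complex.ofReal_im, Complex.mul_re, Complex.add_im, Complex.intCast_re, Complex.intCast_im,
      Complex.re_ofNat, Complex.im_ofNat] at h3
    have hpi := Real.pi_pos
    rw [div_eq_iff (by positivity)]
    push_cast
    linarith
  have hcont : ContinuousOn (fun x => (hi K x - lo K x) * c.re / (2 * Real.pi)) U := by
    have h2 := hi_cont hK hc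
    have h3 := lo_cont hK hc
    exact ((h2.sub h3).mul continuousOn_const).div_const _
  have hpre : IsPreconnected U := (proj_convex hc).interior.isPreconnected
  obtain ⟨x0, hx0⟩ := hint
  have hx0' : x0.2 ∈ U := int_proj hx0
  have hlen0 : 0 < hi K x0.2 - lo K x0.2 := by
    obtain ⟨ε, hε, hball⟩ := Metric.isOpen_iff.1 isOpen_interior x0 hx0
    have h2 : (x0.1 + ε / 2, x0.2) ∈ interior K := by
      apply hball
      rw [Metric.mem_ball, Prod.dist_eq]
      simp only [dist_self, Real.dist_eq, add_sub_cancel_left]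
      rw [abs_of_pos (by linarith), max_eq_left (by linarith)]
      linarith
    have h3 := le_hi hK (interior_subset h2)
    have h4 := lo_le hK (x := x0.2) (t := x0.1) (interior_subset hx0)
    linarith
  refine ⟨hi K x0.2 - lo K x0.2, hlen0, fun x hx => ?_⟩
  have key : ∀ y ∈ U, ∀ z ∈ U, ¬ ((hi K y - lo K y) * c.re / (2 * Real.pi) <
      (hi K z - lo K z) * c.re / (2 * Real.pi)) := by
    intro y hy z hz hlt
    obtain ⟨k1, hk1⟩ := hint' y hy
    obtain ⟨k2, hk2⟩ := hint' z hz
    rw [hk1, hk2] at hlt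
    have hlt' : k1 < k2 := by exact_mod_cast hlt
    have hle : (k1 : ℝ) + 1 ≤ k2 := by exact_mod_cast hlt'
    have h7 := hpre.intermediate_value hy hz hcont
    obtain ⟨v, hv, hv2⟩ := h7 (show (k1 : ℝ) + 1 / 2 ∈ Icc _ _ from
      ⟨by simp only [hk1]; linarith, by simp only [hk2]; linarith⟩)
    obtain ⟨k3, hk3⟩ := hint' v hv
    simp only at hv2
    rw [hk3] at hv2
    have h8 : (k1 : ℝ) < k3 := by linarith
    have h9 : (k3 : ℝ) < k1 + 1 := by linarith
    have h8' : k1 < k3 := by exact_mod_cast h8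
    have h9' : k3 < k1 + 1 := by exact_mod_cast h9
    omega
  have h5 := le_antisymm (not_lt.1 (key _ hx0' _ hx)) (not_lt.1 (key _ hx _ hx0'))
  have hpi := Real.pi_pos
  have h6 : (hi K x - lo K x) * c.re = (hi K x0.2 - lo K x0.2) * c.re := by
    have := congrArg (fun r => r * (2 * Real.pi)) h5
    simpa [div_mul_cancel₀, hpi.ne'] using this
  exact mul_right_cancel₀ hre h6

end

end Helper12.PF
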