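import Mathlib
import Pool.Agent.Helper12.PF.Slab
import Pool.Agent.Helper12.PF.Entire

/-!
# Cylinders have a factor of degree one (helper12)
-/

open Filter Topology Set MeasureTheory Helper12.ConvexFactor

namespace Helper12.PF

noncomputable section

variable {m : ℕ}

/-- transform of a slab `α(x) ≤ t ≤ α(x) + 1`, `x ∈ P` -/
lemma slab_transform {K : Set (ℝ × (Fin m → ℝ))} (hK : IsCompact K) {α : (Fin m → ℝ) → ℝ}
    (hα : ∀ t x, (t, x) ∈ K ↔ x ∈ Prod.snd '' K ∧ t ∈ Icc (α x) (α x + 1)) (c : ℂ)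
    (ζ : Fin m → ℂ) :
    ∫ x in K, Complex.exp (-(Complex.I * ((x.1 : ℂ) * c + ∑ j, (x.2 j : ℂ) * ζ j))) =
      Fac.G 0 1 (-c) * ∫ x in Prod.snd '' K,
        Complex.exp (-(Complex.I * (α x * c + ∑ j, (x j : ℂ) * ζ j))) := by
  rw [gf_transform hK, ← integral_const_mul, ← integral_indicator
    (hK.image continuous_snd).measurableSet]
  refine integral_congr_ae (Eventually.of_forall fun x => ?_)
  by_cases hx : x ∈ Prod.snd '' K
  · rw [indicator_of_mem hx]
    have h1 : fib K x = Icc (α x) (α x + 1) := by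
      ext t
      simp only [fib, mem_ofPred_eq]
      rw [hα]
      exact and_iff_right hx
    have h2 : gf K c x = Complex.exp (-(Complex.I * (α x * c))) * Fac.G 0 1 (-c) := by
      unfold gf Fac.G
      rw [h1, integral_Icc_eq_integral_Ioc, ← intervalIntegral.integral_of_le (by linarith),
        ← intervalIntegral.integral_const_mul]
      have h3 := intervalIntegral.integral_comp_add_right
        (f := fun t : ℝ => Complex.exp (-(Complex.I * (t * c)))) (a := 0) (b := 1) (α x)
      rw [zero_add, add_comm (1:ℝ) (α x)] at h3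
      rw [← h3]
      refine intervalIntegral.integral_congr fun t _ => ?_
      rw [← Complex.exp_add]
      congr 1
      push_cast
      ring
    show Complex.exp (-(Complex.I * ∑ j, (x j : ℂ) * ζ j)) * gf K c x =
      Fac.G 0 1 (-c) * Complex.exp (-(Complex.I * (α x * c + ∑ j, (x j : ℂ) * ζ j)))
    have h3 : Complex.exp (-(Complex.I * (α x * c + ∑ j, (x j : ℂ) * ζ j))) =
        Complex.exp (-(Complex.I * ∑ j, (x j : ℂ) * ζ j)) * Complex.exp (-(Complex.I * (α x * c))) := by
      rw [← Complex.exp_add]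
      congr 1
      ring
    rw [h2, h3]
    ring
  · rw [indicator_of_notMem hx]
    have h1 : fib K x = ∅ := by
      rw [Set.eq_empty_iff_forall_notMem]
      intro t ht
      exact hx ⟨(t, x), ht, rfl⟩
    show Complex.exp (-(Complex.I * ∑ j, (x j : ℂ) * ζ j)) * gf K c x = 0
    unfold gf
    rw [h1]
    simp

theorem cf : ST_CF := by
  intro n K hK hcyl
  obtain ⟨f, w, b, B, hw, hB, hKB⟩ := cyl_iff.2 hcyl
  have hwne : w ≠ 0 := by
    rintro rfl
    exact hw (map_zero f)
  obtain ⟨j0, hj0⟩ : ∃ j, w j ≠ 0 := by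
    by_contra hcon
    push Not at hcon
    exact hwne (funext hcon)
  obtain ⟨m, rfl⟩ : ∃ m, n = m + 1 := ⟨n - 1, by have := j0.pos; omega⟩
  have he0 : (Pi.single 0 1 : Fin (m + 1) → ℝ) ≠ 0 := by
    intro h
    have := congrFun h 0
    simp at this
  obtain ⟨L, hL⟩ := SeparatingDual.exists_continuousLinearEquiv_apply_eq (R := ℝ) hwne he0
  obtain ⟨κ, hκ, hFT⟩ := FT_lin L
  have hKL := body_lin hK L
  -- product coordinates
  set M : (ℝ × (Fin m → ℝ)) ≃L[ℝ] (Fin (m + 1) → ℝ) := (ce m).trans L.symm with hM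
  have hMw : M (1, 0) = w := by
    have h1 : ce m (1, 0) = Pi.single 0 1 := by
      ext i
      refine Fin.cases ?_ (fun j => ?_) i
      · simp [ce_zero]
      · rw [ce_succ, Pi.single_eq_of_ne (Fin.succ_ne_zero j)]
        rfl
    rw [hM, ContinuousLinearEquiv.trans_apply, h1, ← hL, L.symm_apply_apply]
  set K2 : Set (ℝ × (Fin m → ℝ)) := ce m ⁻¹' (L '' K) with hK2
  have hK2c : IsCompact K2 := (ce m).toHomeomorph.isCompact_preimage.2 hKL.isCompact
  have hmem : ∀ x, x ∈ K2 ↔ M x ∈ K := by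
    intro x
    rw [hK2, hM]
    constructor
    · rintro ⟨y, hy, hy2⟩
      rw [ContinuousLinearEquiv.trans_apply, ← hy2, L.symm_apply_apply]
      exact hy
    · intro hx
      exact ⟨_, hx, by simp⟩
  set f2 : (ℝ × (Fin m → ℝ)) →ₗ[ℝ] ℝ := f.comp M.toLinearEquiv.toLinearMap with hf2
  have hf2a : ∀ x, f2 x = f (M x) := fun x => rfl
  have hφ : f2 (1, 0) ≠ 0 := by rwa [hf2a, hMw]
  have hsplit : ∀ t x, f2 (t, x) = t * f2 (1, 0) + f2 (0, x) := by
    intro t x
    have h1 : ((t, x) : ℝ × (Fin m → ℝ)) = t • ((1:ℝ), (0 : Fin m → ℝ)) + (0, x) := by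
      ext <;> simp
    rw [h1, map_add, map_smul, smul_eq_mul]
  set α : (Fin m → ℝ) → ℝ := fun x => (b - f2 (0, x)) / f2 (1, 0) with hαdef
  have hαc : Continuous α := by
    have h1 : Continuous fun x : Fin m → ℝ => f2 (0, x) :=
      (f2.continuous_of_finiteDimensional).comp (by fun_prop)
    exact (continuous_const.sub h1).div_const _
  have hkey : ∀ t x, (t, x) ∈ K2 → M (α x, x) ∈ B ∧ t ∈ Icc (α x) (α x + 1) := by
    intro t x htx
    rw [hmem, hKB] at htx
    obtain ⟨y, hy, s, hs, hys⟩ := htx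
    have h1 : y = M (t - s, x) := by
      have h2 : M (t - s, x) = M (t, x) - s • M (1, 0) := by
        rw [← map_smul, ← map_sub]
        congr 1
        ext <;> simp
      rw [h2, hys, hMw]
      abel
    have h3 := hB y hy
    rw [h1, ← hf2a, hsplit] at h3
    have h4 : α x = t - s := by
      rw [hαdef]
      simp only
      rw [div_eq_iff hφ]
      linarith
    refine ⟨by rw [h4, ← h1]; exact hy, ?_, ?_⟩
    · rw [h4]
      linarith [hs.1]
    · rw [h4]
      linarith [hs.2]
  have hα : ∀ t x, (t, x) ∈ K2 ↔ x ∈ Prod.snd '' K2 ∧ t ∈ Icc (α x) (α x + 1) := by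
    intro t x
    constructor
    · intro h
      exact ⟨⟨(t, x), h, rfl⟩, (hkey t x h).2⟩
    · rintro ⟨⟨⟨t', x'⟩, h', rfl⟩, ht⟩
      have h1 := (hkey t' x' h').1
      rw [hmem, hKB]
      refine ⟨_, h1, t - α x', ⟨by linarith [ht.1], by linarith [ht.2]⟩, ?_⟩
      rw [← hMw, ← map_smul, ← map_add]
      congr 1
      ext <;> simp
  obtain ⟨g, hg, hgf⟩ := Fac.G_factor
  set Ψ : (Fin (m + 1) → ℂ) → ℂ := fun ζ => ∫ x in Prod.snd '' K2,
    Complex.exp (∑ j, (Fin.cons (-(Complex.I * α x)) (fun i => -(Complex.I * (x i : ℂ))) :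
      Fin (m + 1) → ℂ) j * ζ j) with hΨ
  have hΨd : Differentiable ℂ Ψ := by
    apply entire_integral (hK2c.image continuous_snd)
    refine continuous_pi fun j => ?_
    refine Fin.cases ?_ (fun i => ?_) j
    · simp only [Fin.cons_zero]
      fun_prop
    · simp only [Fin.cons_succ]
      fun_prop
  have hF' : ∀ ζ : Fin (m + 1) → ℂ, indicatorFT (L '' K) ζ =
      (ζ 0 + 2 * Real.pi) * (-(g (-ζ 0)) * Ψ ζ) := by
    intro ζ
    rw [FT_prod, slab_transform hK2c hα, hgf]
    have h1 : ∀ x : Fin m → ℝ, Complex.exp (-(Complex.I * (α x * ζ 0 + ∑ j, (x j : ℂ) * ζ j.succ))) =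
        Complex.exp (∑ j, (Fin.cons (-(Complex.I * α x)) (fun i => -(Complex.I * (x i : ℂ))) :
          Fin (m + 1) → ℂ) j * ζ j) := by
      intro x
      congr 1
      rw [Fin.sum_univ_succ]
      simp only [Fin.cons_zero, Fin.cons_succ]
      rw [mul_add, neg_add, Finset.mul_sum, ← Finset.sum_neg_distrib]
      congr 1
      · ring
      · refine Finset.sum_congr rfl fun j _ => ?_
        ring
    simp_rw [h1]
    rw [hΨ]
    ring
  -- the factor
  set T : (Fin (m + 1) → ℂ) → (Fin (m + 1) → ℂ) := tr L.symm with hT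
  have hT0 : ∀ ξ, T ξ 0 = ∑ i, (w i : ℂ) * ξ i := by
    intro ξ
    have h1 : L.symm (Pi.single 0 1) = w := by rw [← hL, L.symm_apply_apply]
    rw [hT]
    simp only [tr, h1]
  have hTd : Differentiable ℂ T := by
    rw [differentiable_pi]
    intro j
    rw [hT]
    simp only [tr]
    fun_prop
  refine ⟨∑ i, MvPolynomial.C (w i : ℂ) * MvPolynomial.X i + MvPolynomial.C (2 * (Real.pi : ℂ)), ?_,
    fun ξ => κ * (-(g (-(T ξ 0))) * Ψ (T ξ)), ?_, ?_⟩
  · -- the degree
    have hle : (∑ i, MvPolynomial.C (w i : ℂ) * MvPolynomial.X i +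
        MvPolynomial.C (2 * (Real.pi : ℂ)) : MvPolynomial (Fin (m + 1)) ℂ).totalDegree ≤ 1 := by
      refine (MvPolynomial.totalDegree_add _ _).trans (max_le ?_ ?_)
      · refine (MvPolynomial.totalDegree_finsetSum _ _).trans (Finset.sup_le fun i _ => ?_)
        refine (MvPolynomial.totalDegree_mul _ _).trans ?_
        rw [MvPolynomial.totalDegree_C, MvPolynomial.totalDegree_X]
      · rw [MvPolynomial.totalDegree_C]
        exact Nat.zero_le _
    have hne : (∑ i, MvPolynomial.C (w i : ℂ) * MvPolynomial.X i +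
        MvPolynomial.C (2 * (Real.pi : ℂ)) : MvPolynomial (Fin (m + 1)) ℂ).totalDegree ≠ 0 := by
      intro h
      rw [MvPolynomial.totalDegree_eq_zero_iff_eq_C] at h
      have h1 := congrArg (MvPolynomial.eval (Pi.single j0 (1:ℂ))) h
      have h2 := congrArg (MvPolynomial.eval (0 : Fin (m + 1) → ℂ)) h
      have h3 : MvPolynomial.eval (Pi.single j0 (1:ℂ)) (∑ i, MvPolynomial.C (w i : ℂ) *
          MvPolynomial.X i + MvPolynomial.C (2 * (Real.pi : ℂ)) : MvPolynomial (Fin (m + 1)) ℂ) =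
          w j0 + 2 * Real.pi := by
        rw [map_add, map_sum, MvPolynomial.eval_C, Finset.sum_eq_single j0]
        · simp
        · intro k _ hk
          simp [Pi.single_eq_of_ne hk]
        · simp
      have h4 : MvPolynomial.eval (0 : Fin (m + 1) → ℂ) (∑ i, MvPolynomial.C (w i : ℂ) *
          MvPolynomial.X i + MvPolynomial.C (2 * (Real.pi : ℂ)) : MvPolynomial (Fin (m + 1)) ℂ) =
          2 * Real.pi := by
        rw [map_add, map_sum, MvPolynomial.eval_C]
        simp
      rw [h3, MvPolynomial.eval_C] at h1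
      rw [h4, MvPolynomial.eval_C] at h2
      have h5 : (w j0 : ℂ) = 0 := by linear_combination h1 - h2
      exact hj0 (by exact_mod_cast h5)
    omega
  · have h1 : Differentiable ℂ fun ξ => g (-(T ξ 0)) :=
      hg.comp ((differentiable_pi.1 hTd 0).neg)
    exact (((h1.neg).mul (hΨd.comp hTd)).const_mul κ)
  · intro ξ
    have h1 := hFT K (T ξ)
    rw [hT, tr_symm, ← hT, hF'] at h1
    rw [h1, map_add, map_sum, MvPolynomial.eval_C]
    simp only [map_mul, MvPolynomial.eval_C, MvPolynomial.eval_X]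
    rw [← hT0]
    ring

end

end Helper12.PF
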