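import Mathlib
import Pool.Agent.Helper12.PF.Slab

/-!
# A convex body whose transform vanishes on a complex hyperplane is a cylinder (helper12)
-/

open Filter Topology Set MeasureTheory Helper12.ConvexFactor

namespace Helper12.PF

noncomputable section

variable {n : ℕ}

/-- the transform does not vanish at purely imaginary points -/
lemma FT_imag_ne {K : Set (Fin n → ℝ)} (hK : IsConvexBody K) (η : Fin n → ℝ) :
    indicatorFT K (fun j => Complex.I * (η j : ℂ)) ≠ 0 := by
  have h1 : indicatorFT K (fun j => Complex.I * (η j : ℂ)) =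
      ((∫ x in K, Real.exp (∑ j, x j * η j) : ℝ) : ℂ) := by
    unfold indicatorFT
    rw [← integral_complex_ofReal]
    refine integral_congr_ae (Eventually.of_forall fun x => ?_)
    simp only []
    push_cast
    congr 1
    rw [Finset.mul_sum, ← Finset.sum_neg_distrib]
    refine Finset.sum_congr rfl fun j _ => ?_
    linear_combination (-(x j : ℂ) * η j) * Complex.I_mul_I
  rw [h1]
  have hcont : Continuous fun x : Fin n → ℝ => Real.exp (∑ j, x j * η j) := by fun_prop
  have hint : IntegrableOn (fun x : Fin n → ℝ => Real.exp (∑ j, x j * η j)) K :=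
    hcont.continuousOn.integrableOn_compact hK.isCompact
  have h2 : 0 < ∫ x in K, Real.exp (∑ j, x j * η j) := by
    rw [setIntegral_pos_iff_support_of_nonneg_ae
      (Eventually.of_forall fun x => (Real.exp_pos _).le) hint]
    have h3 : Function.support (fun x : Fin n → ℝ => Real.exp (∑ j, x j * η j)) = univ := by
      ext x
      simp [(Real.exp_pos _).ne']
    rw [h3, univ_inter]
    exact (isOpen_interior.measure_pos _ hK.nonempty_interior).trans_le (measure_mono interior_subset)
  exact_mod_cast h2.ne'

theorem hc : ST_HC := by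
  intro n K hK l c hl h0
  obtain ⟨j0, hj0⟩ : ∃ j, l j ≠ 0 := by
    by_contra hcon
    push Not at hcon
    exact hl (funext hcon)
  -- no imaginary point on the hyperplane
  have hno : ∀ η : Fin n → ℝ, ∑ j, l j * (Complex.I * (η j : ℂ)) ≠ c := fun η hη =>
    FT_imag_ne hK η (h0 _ hη)
  -- all quotients are real
  have hreal : ∀ j, (l j / l j0).im = 0 := by
    intro j
    by_contra him
    have hjj : j ≠ j0 := by
      rintro rfl
      apply him
      rw [div_self hj0]
      rfl
    set q := l j / l j0 with hq
    set r := -(Complex.I * c) / l j0 with hr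
    set s : ℝ := r.im / q.im with hs
    set t : ℝ := r.re - q.re * s with ht
    apply hno (Pi.single j s + Pi.single j0 t)
    have h1 : ∑ k, l k * (Complex.I * (((Pi.single j s + Pi.single j0 t : Fin n → ℝ) k : ℝ) : ℂ)) =
        Complex.I * (l j * s + l j0 * t) := by
      have h2 : ∀ k, l k * (Complex.I * (((Pi.single j s + Pi.single j0 t : Fin n → ℝ) k : ℝ) : ℂ)) =
          (if k = j then Complex.I * (l j * s) else 0) + (if k = j0 then Complex.I * (l j0 * t) else 0) := by
        intro k
        simp only [Pi.add_apply]
        by_cases hk : k = j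
        · subst hk
          rw [Pi.single_eq_same, Pi.single_eq_of_ne hjj, if_pos rfl, if_neg hjj]
          push_cast
          ring
        · by_cases hk2 : k = j0
          · subst hk2
            rw [Pi.single_eq_same, Pi.single_eq_of_ne hk, if_neg hk, if_pos rfl]
            push_cast
            ring
          · rw [Pi.single_eq_of_ne hk, Pi.single_eq_of_ne hk2, if_neg hk, if_neg hk2]
            push_cast
            ring
      rw [Finset.sum_congr rfl fun k _ => h2 k, Finset.sum_add_distrib, Finset.sum_ite_eq' Finset.univ j,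
        Finset.sum_ite_eq' Finset.univ j0]
      simp only [Finset.mem_univ, if_true]
      ring
    rw [h1]
    have h3 : q * s + t = r := by
      apply Complex.ext
      · simp only [Complex.add_re, Complex.mul_re, Complex.ofReal_re, Complex.ofReal_im, mul_zero,
          sub_zero]
        rw [ht]
        ring
      · simp only [Complex.add_im, Complex.mul_im, Complex.ofReal_re, Complex.ofReal_im, mul_zero,
          add_zero, zero_add]
        rw [hs]
        field_simp
    have h4 : l j * s + l j0 * t = l j0 * (q * s + t) := by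
      rw [hq]
      field_simp
    rw [h4, h3, hr]
    field_simp
    linear_combination (-c) * Complex.I_mul_I
  set w : Fin n → ℝ := fun j => (l j / l j0).re with hw
  have hlw : ∀ j, l j = l j0 * (w j : ℂ) := by
    intro j
    have h1 : l j / l j0 = (w j : ℂ) := by
      apply Complex.ext
      · simp [hw]
      · simp [hreal j]
    rw [← h1]
    field_simp
  have hw0 : w j0 = 1 := by
    simp only [hw]
    rw [div_self hj0]
    rfl
  have hwne : w ≠ 0 := by
    intro h
    rw [h] at hw0
    simp at hw0
  set c' := c / l j0 with hc'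
  have hre : c'.re ≠ 0 := by
    intro hre
    apply hno (Pi.single j0 c'.im)
    have h1 : ∑ k, l k * (Complex.I * (((Pi.single j0 c'.im : Fin n → ℝ) k : ℝ) : ℂ)) =
        l j0 * (Complex.I * c'.im) := by
      rw [Finset.sum_eq_single j0]
      · rw [Pi.single_eq_same]
      · intro k _ hk
        rw [Pi.single_eq_of_ne hk]
        simp
      · simp
    rw [h1]
    have h2 : Complex.I * (c'.im : ℂ) = c' := by
      apply Complex.ext
      · simp [hre]
      · simp
    rw [h2, hc']
    field_simp
  -- the dimension is positive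
  obtain ⟨m, rfl⟩ : ∃ m, n = m + 1 := ⟨n - 1, by have := j0.pos; omega⟩
  have he0 : (Pi.single 0 1 : Fin (m + 1) → ℝ) ≠ 0 := by
    intro h
    have := congrFun h 0
    simp at this
  obtain ⟨L, hL⟩ := SeparatingDual.exists_continuousLinearEquiv_apply_eq (R := ℝ) hwne he0
  obtain ⟨κ, hκ, hFT⟩ := FT_lin L
  have hKL := body_lin hK L
  set K' : Set (Fin (m + 1) → ℝ) := L '' K with hK'
  -- the transform of K' vanishes on ζ₀ = c'
  have hvan : ∀ ζ : Fin (m + 1) → ℂ, ζ 0 = c' → indicatorFT K' ζ = 0 := by
    intro ζ hζ
    have h1 := hFT K ζ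
    have h2 : indicatorFT K (tr L ζ) = 0 := by
      apply h0
      have h3 := tr_pair L w ζ
      have h4 : ∑ i, ((L w i : ℝ) : ℂ) * ζ i = ζ 0 := by
        rw [hL, Finset.sum_eq_single 0]
        · simp
        · intro k _ hk
          rw [Pi.single_eq_of_ne hk]
          simp
        · simp
      rw [h4, hζ] at h3
      calc ∑ j, l j * tr L ζ j = ∑ j, l j0 * ((w j : ℂ) * tr L ζ j) := by
            refine Finset.sum_congr rfl fun j _ => ?_
            rw [hlw j]
            ring
        _ = l j0 * c' := by rw [← Finset.mul_sum, h3]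
        _ = c := by rw [hc']; field_simp
    rw [h2] at h1
    exact (mul_eq_zero.1 h1.symm).resolve_left hκ
  set K2 : Set (ℝ × (Fin m → ℝ)) := ce m ⁻¹' K' with hK2
  have hK2c : IsCompact K2 := (ce m).toHomeomorph.isCompact_preimage.2 hKL.isCompact
  have hK2v : Convex ℝ K2 := hKL.convex.linear_preimage (ce m).toLinearEquiv.toLinearMap
  have hK2i : (interior K2).Nonempty := by
    have h1 : interior K2 = ce m ⁻¹' interior K' :=
      ((ce m).toHomeomorph.preimage_interior K').symm
    rw [h1]
    obtain ⟨x, hx⟩ := hKL.nonempty_interior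
    exact ⟨(ce m).symm x, by simpa using hx⟩
  obtain ⟨ℓ, hℓ, hlen⟩ := slab hK2c hK2v hK2i hre (fun ζ => by
    have h1 := hvan (Fin.cons c' ζ) (by simp)
    rw [FT_prod] at h1
    simpa using h1)
  obtain ⟨f, b, B, hf, hB, hKB⟩ := cyl_of_const hK2c hK2v hK2i hlen hℓ
  have hcyl2 : Cyl K2 := ⟨f, (ℓ, 0), b, B, hf, hB, hKB⟩
  have hcyl' : Cyl K' := by
    have h1 := hcyl2.image (ce m).toLinearEquiv
    have h2 : (ce m).toLinearEquiv '' K2 = K' := by
      rw [hK2]
      exact Set.image_preimage_eq _ (ce m).surjective
    rwa [h2] at h1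
  have hcyl : Cyl K := by
    have h1 := hcyl'.image L.symm.toLinearEquiv
    have h2 : L.symm.toLinearEquiv '' K' = K := by
      rw [hK']
      ext x
      constructor
      · rintro ⟨_, ⟨y, hy, rfl⟩, rfl⟩
        simpa using hy
      · intro hx
        exact ⟨L x, ⟨x, hx, rfl⟩, by simp⟩
    rwa [h2] at h1
  exact cyl_iff.1 hcyl

end

end Helper12.PF
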