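import Mathlib
import Pool.Agent.Helper12.PF.HC
import Pool.Agent.Helper12.PF.CF

/-!
# Factors of degree one in all dimensions (helper12)
-/

open Helper12.ConvexFactor

namespace Helper12.PF

noncomputable section

variable {n : ℕ}

/-- polynomials of degree one are affine linear -/
lemma eval_of_totalDegree_one {p : MvPolynomial (Fin n) ℂ} (hp : p.totalDegree = 1) :
    ∃ (l : Fin n → ℂ) (c : ℂ), l ≠ 0 ∧ ∀ z, MvPolynomial.eval z p = ∑ j, l j * z j - c := by
  have h1 := MvPolynomial.sum_homogeneousComponent p
  rw [hp, Finset.sum_range_succ, Finset.sum_range_one, MvPolynomial.homogeneousComponent_zero] at h1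
  have h2 : MvPolynomial.homogeneousComponent 1 p ∈ MvPolynomial.homogeneousSubmodule (Fin n) ℂ 1 :=
    MvPolynomial.homogeneousComponent_mem 1 p
  rw [MvPolynomial.homogeneousSubmodule_one_eq_span_X, Submodule.mem_span_range_iff_exists_fun] at h2
  obtain ⟨l, hl⟩ := h2
  refine ⟨l, -MvPolynomial.coeff 0 p, ?_, fun z => ?_⟩
  · rintro rfl
    simp only [Pi.zero_apply, zero_smul, Finset.sum_const_zero] at hl
    rw [← hl, add_zero] at h1
    have h3 : p.totalDegree = 0 := by rw [← h1, MvPolynomial.totalDegree_C]
    omega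
  · conv_lhs => rw [← h1, ← hl]
    rw [map_add, map_sum, MvPolynomial.eval_C]
    simp only [MvPolynomial.smul_eval, MvPolynomial.eval_X]
    ring

/-- A convex body has a factor of degree one if and only if it is a cylinder. -/
theorem linear_iff {K : Set (Fin n → ℝ)} (hK : IsConvexBody K) :
    (∃ p : MvPolynomial (Fin n) ℂ, p.totalDegree = 1 ∧ IsPolynomialFactor K p) ↔ IsCylinder K := by
  constructor
  · rintro ⟨p, hp, f, -, hf⟩
    obtain ⟨l, c, hl, hlc⟩ := eval_of_totalDegree_one hp
    apply hc n K hK l c hl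
    intro ζ hζ
    rw [hf, hlc, hζ, sub_self, zero_mul]
  · exact cf n K hK

end

end Helper12.PF
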