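import Mathlib
import Pool.Agent.Helper12.PF.LinFac

/-!
# Polynomial factors of transforms of polytopes (helper12)
-/

open Helper12.ConvexFactor

namespace Helper12.PF

noncomputable section

variable {n : ℕ}

lemma eval_smul_hom {N : MvPolynomial (Fin n) ℂ} {e : ℕ} (hN : N.IsHomogeneous e) (t : ℂ)
    (z : Fin n → ℂ) :
    MvPolynomial.eval (fun i => t * z i) N = t ^ e * MvPolynomial.eval z N := by
  rw [MvPolynomial.eval_eq', MvPolynomial.eval_eq', Finset.mul_sum]
  refine Finset.sum_congr rfl fun d hd => ?_
  have h1 : ∑ i, d i = e := by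
    have h2 := hN (MvPolynomial.mem_support_iff.1 hd)
    rw [← h2, Finsupp.weight_apply, Finsupp.sum_fintype _ _ (by simp)]
    simp
  simp_rw [mul_pow, Finset.prod_mul_distrib, Finset.prod_pow_eq_pow_sum, h1]
  ring

/-- restriction to a line -/
def lineP (q : MvPolynomial (Fin n) ℂ) (a b : Fin n → ℂ) : Polynomial ℂ :=
  MvPolynomial.aeval (fun i => Polynomial.C (a i) + Polynomial.C (b i) * Polynomial.X) q

lemma eval_lineP (q : MvPolynomial (Fin n) ℂ) (a b : Fin n → ℂ) (t : ℂ) :
    (lineP q a b).eval t = MvPolynomial.eval (a + t • b) q := by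
  have h1 : (Polynomial.evalRingHom t).comp (MvPolynomial.aeval
      (fun i => Polynomial.C (a i) + Polynomial.C (b i) * Polynomial.X)).toRingHom =
      (MvPolynomial.eval (a + t • b) : MvPolynomial (Fin n) ℂ →+* ℂ) := by
    apply MvPolynomial.ringHom_ext
    · intro r
      simp
    · intro i
      simp only [AlgHom.toRingHom_eq_coe, RingHom.coe_comp, RingHom.coe_coe, Function.comp_apply,
        MvPolynomial.aeval_X, Polynomial.coe_evalRingHom, Polynomial.eval_add, Polynomial.eval_C,
        Polynomial.eval_mul, Polynomial.eval_X, MvPolynomial.eval_X, Pi.add_apply, Pi.smul_apply,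
        smul_eq_mul]
      ring
  exact congrFun (congrArg DFunLike.coe h1) q

lemma line_const {q : MvPolynomial (Fin n) ℂ} {a b : Fin n → ℂ}
    (h : ∀ t : ℂ, MvPolynomial.eval (a + t • b) q ≠ 0) :
    MvPolynomial.eval (a + b) q = MvPolynomial.eval a q := by
  have h1 : (lineP q a b).degree = 0 := by
    by_contra hcon
    obtain ⟨t, ht⟩ := IsAlgClosed.exists_root _ hcon
    rw [Polynomial.IsRoot.def, eval_lineP] at ht
    exact h t ht
  have h2 := eval_lineP q a b 1
  have h3 := eval_lineP q a b 0
  rw [Polynomial.eq_C_of_degree_eq_zero h1, Polynomial.eval_C] at h2 h3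
  rw [one_smul] at h2
  rw [zero_smul, add_zero] at h3
  rw [← h2, ← h3]

lemma exists_zero {q : MvPolynomial (Fin n) ℂ} (hq : Prime q) :
    ∃ z, MvPolynomial.eval z q = 0 := by
  by_contra hcon
  push Not at hcon
  have h1 : q = MvPolynomial.C (MvPolynomial.eval 0 q) := by
    apply MvPolynomial.funext
    intro z
    rw [MvPolynomial.eval_C]
    have h2 := line_const (q := q) (a := 0) (b := z) fun t => hcon _
    rwa [zero_add] at h2
  apply hq.not_isUnit
  rw [h1]
  exact (isUnit_iff_ne_zero.2 (hcon 0)).map MvPolynomial.C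

/-- a prime polynomial not vanishing at the origin divides no nonzero homogeneous polynomial -/
lemma not_dvd_homogeneous {q N : MvPolynomial (Fin n) ℂ} (hq : Prime q) (hq0 : MvPolynomial.eval 0 q ≠ 0)
    {e : ℕ} (hN : N.IsHomogeneous e) (hN0 : N ≠ 0) : ¬ q ∣ N := by
  rintro ⟨g, hg⟩
  have h1 : (q - MvPolynomial.C (MvPolynomial.eval 0 q)) * N = 0 := by
    apply MvPolynomial.funext
    intro z
    rw [map_mul, map_sub, MvPolynomial.eval_C, map_zero]
    by_cases hz : MvPolynomial.eval z N = 0
    · rw [hz, mul_zero]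
    · have h2 : ∀ t : ℂ, MvPolynomial.eval ((0 : Fin n → ℂ) + t • z) q ≠ 0 := by
        intro t
        by_cases ht : t = 0
        · rw [ht, zero_smul, add_zero]
          exact hq0
        · intro hcon
          have h3 := eval_smul_hom hN t z
          have h4 : (fun i => t * z i) = (0 : Fin n → ℂ) + t • z := by
            ext i
            simp
          rw [h4, hg, map_mul, hcon, zero_mul] at h3
          have h5 : MvPolynomial.eval z N ≠ 0 := hz
          rw [hg] at h5
          rcases mul_eq_zero.1 h3.symm with h6 | h6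
          · exact pow_ne_zero _ ht h6
          · exact h5 h6
      have h3 := line_const h2
      rw [zero_add] at h3
      rw [h3, sub_self, zero_mul]
  have h2 := (mul_eq_zero.1 h1).resolve_right hN0
  rw [sub_eq_zero] at h2
  apply hq.not_isUnit
  rw [h2]
  exact (isUnit_iff_ne_zero.2 hq0).map MvPolynomial.C

theorem polytope_iff (hRT : ST_RT) (hEP : ST_EP) {K : Set (Fin n → ℝ)} (hK : IsConvexBody K)
    (hP : IsPolyhedron K) : HasPolynomialFactor K ↔ IsCylinder K := by
  constructor
  swap
  · intro h
    obtain ⟨p, hp, hf⟩ := cf n K hK h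
    exact ⟨p, by omega, hf⟩
  rintro ⟨p, hp, f, -, hf⟩
  have hp0 : p ≠ 0 := by
    rintro rfl
    simp at hp
  have hpu : ¬ IsUnit p := by
    intro h
    rw [MvPolynomial.isUnit_iff_totalDegree_of_isReduced] at h
    exact hp h.2
  obtain ⟨q, hqi, g, hqp⟩ := WfDvdMonoid.exists_irreducible_factor hpu hp0
  have hq : Prime q := hqi.prime
  have hvan : ∀ z, MvPolynomial.eval z q = 0 → indicatorFT K z = 0 := by
    intro z hz
    rw [hf, hqp, map_mul, hz, zero_mul, zero_mul]
  have hq0 : MvPolynomial.eval 0 q ≠ 0 := by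
    intro h
    have h1 := hvan 0 h
    have h2 := FT_imag_ne hK (0 : Fin n → ℝ)
    apply h2
    have h3 : (fun j => Complex.I * (((0 : Fin n → ℝ) j : ℝ) : ℂ)) = 0 := by
      ext j
      simp
    rw [h3, h1]
  obtain ⟨m, a, b, hKab⟩ := hP
  have hbd := hK.isCompact.isBounded
  rw [hKab] at hbd
  obtain ⟨D, e, V, N, hD0, -, hN, hDF⟩ := hEP n m a b hbd
  rw [← hKab] at hDF
  by_cases hall : ∀ v ∈ V, N v = 0
  · -- then the transform vanishes at an imaginary point
    exfalso
    apply hD0
    have hinf : ∀ i : Fin n, (Set.range fun t : ℝ => Complex.I * (t : ℂ)).Infinite := by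
      intro _
      apply Set.infinite_range_of_injective
      intro s t hst
      have := mul_left_cancel₀ Complex.I_ne_zero hst
      exact_mod_cast this
    refine MvPolynomial.funext_set (fun _ => Set.range fun t : ℝ => Complex.I * (t : ℂ)) hinf ?_
    intro x hx
    choose η hη using fun i => hx i (Set.mem_univ i)
    have h1 : x = fun j => Complex.I * (η j : ℂ) := by
      ext j
      exact (hη j).symm
    have h2 := hDF x
    rw [Finset.sum_eq_zero (fun v hv => by rw [hall v hv, map_zero, zero_mul])] at h2
    rw [map_zero]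
    refine (mul_eq_zero.1 h2).resolve_right ?_
    rw [h1]
    exact FT_imag_ne hK η
  · push Not at hall
    obtain ⟨v0, hv0, hNv0⟩ := hall
    set φ : (Fin n → ℝ) → (Fin n → ℂ) := fun v j => -(Complex.I * (v j : ℂ)) with hφ
    set ψ : (Fin n → ℂ) → (Fin n → ℝ) := fun u j => (Complex.I * u j).re with hψ
    have hψφ : ∀ v, ψ (φ v) = v := by
      intro v
      ext j
      simp only [hψ, hφ]
      have : Complex.I * -(Complex.I * (v j : ℂ)) = (v j : ℂ) := by
        linear_combination (-(v j : ℂ)) * Complex.I_mul_I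
      rw [this, Complex.ofReal_re]
    have hinj : Function.Injective φ := Function.LeftInverse.injective hψφ
    obtain ⟨u, hu, u', hu', hne, htr⟩ := hRT n q (V.image φ) (fun u => N (ψ u)) hq
      (by
        intro z hz
        rw [Finset.sum_image (fun x _ y _ h => hinj h)]
        have h1 := hDF z
        rw [hvan z hz, mul_zero] at h1
        rw [h1]
        refine Finset.sum_congr rfl fun v _ => ?_
        rw [hψφ]
        congr 2
        simp only [hφ]
        rw [Finset.mul_sum, ← Finset.sum_neg_distrib]
        refine Finset.sum_congr rfl fun j _ => ?_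
        ring)
      ⟨φ v0, Finset.mem_image_of_mem _ hv0, by
        simp only [hψφ]
        exact not_dvd_homogeneous hq hq0 (hN v0 hv0) hNv0⟩
    obtain ⟨z0, hz0⟩ := exists_zero hq
    apply hc n K hK (u - u') (∑ j, (u - u') j * z0 j) (sub_ne_zero.2 hne)
    intro ζ hζ
    apply hvan
    have h1 := htr z0 (ζ - z0) (by
      simp only [Pi.sub_apply (f := ζ) (g := z0), mul_sub, Finset.sum_sub_distrib]
      rw [hζ, sub_self])
    rw [add_sub_cancel] at h1
    rw [h1, hz0]

end

end Helper12.PF
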